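import Mathlib

/-!
# MP_49a8fd_lc: pattern languages and slow chains — definitions
-/

namespace Pool.Agent.PatDepth

/-- Apply a substitution to a pattern. A pattern over the alphabet `A` is a word over `ℕ ⊕ A`;
`Sum.inl x` is the variable number `x`, `Sum.inr a` is the letter `a`. Letters are kept, the
variable `x` is replaced by the word `τ x`. -/
def subst {A : Type} (τ : ℕ → List A) (p : List (ℕ ⊕ A)) : List A :=
  p.flatMap (Sum.elim τ fun a => [a])

/-- The non-erasing pattern language of `p`. -/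
def Lang {A : Type} (p : List (ℕ ⊕ A)) : Set (List A) :=
  {w | ∃ τ : ℕ → List A, (∀ x, τ x ≠ []) ∧ w = subst τ p}

/-- The number of distinct variables of `p`. -/
def nvar {A : Type} (p : List (ℕ ⊕ A)) : ℕ :=
  (p.filterMap Sum.getLeft?).toFinset.card

/-- There are non-empty patterns `c 0, ..., c n` with
`L(x₁) = L(c 0) ⊋ L(c 1) ⊋ ... ⊋ L(c n) = L(p)` in which each pattern is at most one symbol longer
than the one before. -/
def HasSlowChain {A : Type} (p : List (ℕ ⊕ A)) (n : ℕ) : Prop :=
  ∃ c : ℕ → List (ℕ ⊕ A), (∀ i ≤ n, c i ≠ []) ∧ Lang (c 0) = Lang [Sum.inl 1] ∧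
    Lang (c n) = Lang p ∧
    ∀ i < n, Lang (c (i + 1)) ⊂ Lang (c i) ∧ (c (i + 1)).length ≤ (c i).length + 1

end Pool.Agent.PatDepth
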