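import Mathlib
import Pool.Agent.PatDepth.Defs

namespace Pool.Agent.PatDepth

open Module

/-- One step of the covering argument. -/
theorem cover_step {K V ι : Type*} [Field K] [AddCommGroup V] [Module K V] [FiniteDimensional K V]
    (S : ι → Prop) (Q : ι → Set V) (F : ι → Submodule K V) {D : ℕ}
    (hQ : ∀ i, ∀ w ∈ Q i, ∀ w', w' ∈ Q i ↔ w' - w ∈ F i)
    (a : ι) (hD : finrank K (F a) ≤ D) (v : V) (hv : v ∉ F a) (hvS : ∀ i, S i → v ∈ F i)
    (IH : ∀ (p0 : V) (E : Submodule K V), D < finrank K E → ∃ e ∈ E, ∀ i, S i → p0 + e ∉ Q i)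
    (p0 : V) (E : Submodule K V) (hE : D < finrank K E) :
    ∃ e ∈ E, (∀ i, S i → p0 + e ∉ Q i) ∧ p0 + e ∉ Q a := by
  classical
  -- moving along directions of `F i` does not change membership in `Q i`
  have hmove : ∀ i, S i → ∀ w u, u ∈ F i → w ∉ Q i → w + u ∉ Q i := by
    intro i _ w u hu hw hwu
    exact hw ((hQ i _ hwu w).mpr (by
      have : w - (w + u) = -u := by abel
      rw [this]; exact (F i).neg_mem hu))
  by_cases hvE : v ∈ E
  · obtain ⟨e, he, h⟩ := IH p0 E hE
    by_cases h1 : p0 + e ∈ Q a
    · refine ⟨e + v, E.add_mem he hvE, fun i hi => ?_, fun h2 => ?_⟩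
      · rw [← add_assoc]; exact hmove i hi _ _ (hvS i hi) (h i hi)
      · apply hv
        have := (hQ a _ h1 _).mp h2
        have h3 : p0 + (e + v) - (p0 + e) = v := by abel
        rwa [h3] at this
    · exact ⟨e, he, h, h1⟩
  · by_cases hne : ∃ c, c ∈ Q a
    · obtain ⟨c, hc⟩ := hne
      obtain ⟨e1, he1, he1F⟩ : ∃ e1 ∈ E, e1 ∉ F a := by
        by_contra hcon
        push Not at hcon
        have : E ≤ F a := hcon
        have := Submodule.finrank_mono this
        omega
      obtain ⟨φ, hφ1, hφ2⟩ := Submodule.exists_le_ker_of_notMem he1F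
      -- base point off the hyperplane
      obtain ⟨α, hα⟩ : ∃ α : K, φ (p0 + α • e1 - c) ≠ 0 := by
        by_cases h0 : φ (p0 - c) = 0
        · refine ⟨1, ?_⟩
          have : p0 + (1 : K) • e1 - c = (p0 - c) + e1 := by rw [one_smul]; abel
          rw [this, map_add, h0, zero_add]
          exact hφ1
        · exact ⟨0, by rwa [zero_smul, add_zero]⟩
      set E1 : Submodule K V := E ⊓ LinearMap.ker φ with hE1
      have hE1rank : finrank K E ≤ finrank K E1 + 1 := by
        have h1 := Submodule.finrank_sup_add_finrank_inf_eq E (LinearMap.ker φ)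
        have h2 := LinearMap.finrank_range_add_finrank_ker φ
        have h3 : finrank K (LinearMap.range φ) ≤ 1 := by
          have := Submodule.finrank_le (LinearMap.range φ)
          rwa [finrank_self] at this
        have h4 : finrank K (E ⊔ LinearMap.ker φ : Submodule K V) ≤ finrank K V :=
          Submodule.finrank_le _
        rw [hE1]
        omega
      have hvE1 : v ∉ E1 := fun h => hvE (Submodule.mem_inf.mp h).1
      have hE2 : D < finrank K (E1 ⊔ Submodule.span K {v} : Submodule K V) := by
        have hlt : E1 < E1 ⊔ Submodule.span K {v} := by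
          rw [SetLike.lt_iff_le_and_exists]
          exact ⟨le_sup_left, v, Submodule.mem_sup_right (Submodule.mem_span_singleton_self v),
            hvE1⟩
        have := Submodule.finrank_lt_finrank_of_lt hlt
        omega
      obtain ⟨e2, he2, h⟩ := IH (p0 + α • e1) _ hE2
      obtain ⟨e3, he3, y, hy, rfl⟩ := Submodule.mem_sup.mp he2
      obtain ⟨β, rfl⟩ := Submodule.mem_span_singleton.mp hy
      rw [hE1, Submodule.mem_inf] at he3
      refine ⟨α • e1 + e3, E.add_mem (E.smul_mem _ he1) he3.1, fun i hi => ?_, fun h2 => ?_⟩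
      · have h3 := hmove i hi _ (-(β • v)) ((F i).neg_mem ((F i).smul_mem β (hvS i hi))) (h i hi)
        have h4 : p0 + α • e1 + (e3 + β • v) + -(β • v) = p0 + (α • e1 + e3) := by abel
        rwa [h4] at h3
      · have h3 := (hQ a _ hc _).mp h2
        have h4 := hφ2 h3
        rw [LinearMap.mem_ker] at h4
        have h5 : p0 + (α • e1 + e3) - c = (p0 + α • e1 - c) + e3 := by abel
        rw [h5, map_add, LinearMap.mem_ker.mp he3.2, add_zero] at h4
        exact hα h4
    · obtain ⟨e, he, h⟩ := IH p0 E hE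
      exact ⟨e, he, h, fun h1 => hne ⟨_, h1⟩⟩

end Pool.Agent.PatDepth
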