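import Mathlib
import Pool.Agent.PatDepth.Cover

namespace Pool.Agent.PatDepth

open Module

section lists
variable {A : Type}

lemma subst_nil (τ : ℕ → List A) : subst τ [] = [] := rfl

lemma subst_cons (τ : ℕ → List A) (s : ℕ ⊕ A) (p : List (ℕ ⊕ A)) :
    subst τ (s :: p) = Sum.elim τ (fun a => [a]) s ++ subst τ p := rfl

lemma subst_append (τ : ℕ → List A) (p p' : List (ℕ ⊕ A)) :
    subst τ (p ++ p') = subst τ p ++ subst τ p' := by
  simp [subst]

/-- letter-for-variable substitution -/
def lets (f : ℕ → A) (p : List (ℕ ⊕ A)) : List A := p.map (Sum.elim f id)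

lemma subst_letter (f : ℕ → A) (p : List (ℕ ⊕ A)) : subst (fun x => [f x]) p = lets f p := by
  induction p with
  | nil => rfl
  | cons s p ih =>
    rw [subst_cons, ih]
    cases s <;> simp [lets]

lemma length_le {τ : ℕ → List A} (hτ : ∀ x, τ x ≠ []) (p : List (ℕ ⊕ A)) :
    p.length ≤ (subst τ p).length := by
  induction p with
  | nil => simp
  | cons s p ih =>
    rw [subst_cons, List.length_append, List.length_cons]
    cases s with
    | inl x =>
      have := List.length_pos_iff.mpr (hτ x)
      simp only [Sum.elim_inl]; omega
    | inr a => simp only [Sum.elim_inr, List.length_singleton]; omega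

lemma case0 (a0 : A) {τ : ℕ → List A} (hτ : ∀ x, τ x ≠ []) (p : List (ℕ ⊕ A))
    (h : (subst τ p).length = p.length) :
    subst τ p = lets (fun x => (τ x).headD a0) p ∧ ∀ x, Sum.inl x ∈ p → (τ x).length = 1 := by
  induction p with
  | nil => simp [lets, subst_nil]
  | cons s p ih =>
    rw [subst_cons, List.length_append, List.length_cons] at h
    have hp := length_le hτ p
    cases s with
    | inl x =>
      have hx := List.length_pos_iff.mpr (hτ x)
      simp only [Sum.elim_inl] at h
      have h1 : (τ x).length = 1 := by omega
      obtain ⟨c, hc⟩ := List.length_eq_one_iff.mp h1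
      obtain ⟨ih1, ih2⟩ := ih (by omega)
      constructor
      · rw [subst_cons, Sum.elim_inl, ih1, hc]
        simp [lets, hc]
      · intro y hy
        rcases List.mem_cons.mp hy with h2 | h2
        · rw [Sum.inl.inj h2]; exact h1
        · exact ih2 y h2
    | inr a =>
      simp only [Sum.elim_inr, List.length_singleton] at h
      obtain ⟨ih1, ih2⟩ := ih (by omega)
      constructor
      · rw [subst_cons, Sum.elim_inr, ih1]; simp [lets]
      · intro y hy
        rcases List.mem_cons.mp hy with h2 | h2
        · exact absurd h2 (by simp)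
        · exact ih2 y h2

lemma case1 (a0 : A) {τ : ℕ → List A} (hτ : ∀ x, τ x ≠ []) (p : List (ℕ ⊕ A))
    (h : (subst τ p).length = p.length + 1) :
    ∃ (p1 : List (ℕ ⊕ A)) (x : ℕ) (p2 : List (ℕ ⊕ A)) (c d : A), p = p1 ++ Sum.inl x :: p2 ∧
      Sum.inl x ∉ p1 ∧ Sum.inl x ∉ p2 ∧ (τ x).length = 2 ∧
      subst τ p = lets (fun x => (τ x).headD a0) p1 ++
        c :: d :: lets (fun x => (τ x).headD a0) p2 := by
  induction p with
  | nil => simp [subst_nil] at h
  | cons s p ih =>
    rw [subst_cons, List.length_append, List.length_cons] at h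
    have hp := length_le hτ p
    cases s with
    | inl y =>
      have hy := List.length_pos_iff.mpr (hτ y)
      simp only [Sum.elim_inl] at h
      by_cases h1 : (τ y).length = 1
      · obtain ⟨e, he⟩ := List.length_eq_one_iff.mp h1
        obtain ⟨p1, x, p2, c, d, hp', hx1, hx2, hx, hs⟩ := ih (by omega)
        refine ⟨Sum.inl y :: p1, x, p2, c, d, by rw [hp']; rfl, ?_, hx2, hx, ?_⟩
        · intro hmem
          rcases List.mem_cons.mp hmem with h2 | h2
          · rw [Sum.inl.inj h2] at hx; omega
          · exact hx1 h2
        · rw [subst_cons, hs, Sum.elim_inl, he]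
          simp [lets, he]
      · have h2 : (τ y).length = 2 := by omega
        obtain ⟨c, d, hcd⟩ := List.length_eq_two.mp h2
        obtain ⟨h3, h4⟩ := case0 a0 hτ p (by omega)
        refine ⟨[], y, p, c, d, rfl, by simp, fun hmem => ?_, h2, ?_⟩
        · have := h4 y hmem; omega
        · rw [subst_cons, Sum.elim_inl, h3, hcd]; rfl
    | inr a =>
      simp only [Sum.elim_inr, List.length_singleton] at h
      obtain ⟨p1, x, p2, c, d, hp', hx1, hx2, hx, hs⟩ := ih (by omega)
      refine ⟨Sum.inr a :: p1, x, p2, c, d, by rw [hp']; rfl, ?_, hx2, hx, ?_⟩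
      · intro hmem
        rcases List.mem_cons.mp hmem with h2 | h2
        · exact absurd h2 (by simp)
        · exact hx1 h2
      · rw [subst_cons, hs, Sum.elim_inr]
        simp [lets]

end lists

section linear
variable {A : Type} {m : ℕ}

/-- the position of level `l` when level `i` occupies the two positions `i`, `i + 1` -/
def pos (i l : Fin m) : Fin (m + 1) := i.castSucc.succAbove l

lemma pos_val (i l : Fin m) : (pos i l : ℕ) = if (l : ℕ) < i then (l : ℕ) else l + 1 := by
  unfold pos
  by_cases h : l < i
  · rw [Fin.succAbove_of_castSucc_lt _ _ (by simpa using h), if_pos (by exact h)]; rfl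
  · rw [Fin.succAbove_of_le_castSucc _ _ (by simpa using h), if_neg (by simpa using h)]; rfl

lemma pos_inj (i : Fin m) : Function.Injective (pos i) := Fin.succAbove_right_injective

lemma pos_surj (i : Fin m) (j : Fin (m + 1)) : j = i.castSucc ∨ ∃ l, pos i l = j := by
  by_cases h : j = i.castSucc
  · exact Or.inl h
  · exact Or.inr (Fin.exists_succAbove_eq h)

/-- vectors compatible with doubling level `i` -/
def QQ (q : Fin m → ℕ ⊕ A) (code : A → ZMod 2) (i : Fin m) : Set (Fin (m + 1) → ZMod 2) :=
  {ω | ∃ t : ℕ → ZMod 2, ∀ l, l ≠ i → ω (pos i l) = Sum.elim t code (q l)}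

/-- the direction space of `QQ` -/
def FF (q : Fin m → ℕ ⊕ A) (i : Fin m) : Submodule (ZMod 2) (Fin (m + 1) → ZMod 2) where
  carrier := {ω | ∃ t : ℕ → ZMod 2, ∀ l, l ≠ i → ω (pos i l) = Sum.elim t (fun _ => 0) (q l)}
  add_mem' := by
    rintro u v ⟨s, hs⟩ ⟨t, ht⟩
    refine ⟨s + t, fun l hl => ?_⟩
    rw [Pi.add_apply, hs l hl, ht l hl]
    cases q l <;> simp
  zero_mem' := by
    refine ⟨0, fun l _ => ?_⟩
    cases q l <;> simp
  smul_mem' := by
    rintro c u ⟨s, hs⟩
    refine ⟨c • s, fun l hl => ?_⟩
    rw [Pi.smul_apply, hs l hl]
    cases q l <;> simp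

lemma mem_FF {q : Fin m → ℕ ⊕ A} {i : Fin m} {ω : Fin (m + 1) → ZMod 2} :
    ω ∈ FF q i ↔ ∃ t : ℕ → ZMod 2, ∀ l, l ≠ i → ω (pos i l) = Sum.elim t (fun _ => 0) (q l) :=
  Iff.rfl

lemma QQ_trans (q : Fin m → ℕ ⊕ A) (code : A → ZMod 2) (i : Fin m) :
    ∀ w ∈ QQ q code i, ∀ w', w' ∈ QQ q code i ↔ w' - w ∈ FF q i := by
  rintro w ⟨t, ht⟩ w'
  constructor
  · rintro ⟨t', ht'⟩
    refine mem_FF.mpr ⟨t' - t, fun l hl => ?_⟩
    rw [Pi.sub_apply, ht l hl, ht' l hl]
    cases q l <;> simp
  · rintro ⟨s, hs⟩
    refine ⟨t + s, fun l hl => ?_⟩
    have h1 := hs l hl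
    rw [Pi.sub_apply, ht l hl] at h1
    have h2 : w' (pos i l) = Sum.elim t code (q l) + Sum.elim s (fun _ => 0) (q l) := by
      rw [← h1]; ring
    rw [h2]
    cases q l <;> simp

/-- the variable at level `i` occurs only there -/
def Single (q : Fin m → ℕ ⊕ A) (i : Fin m) : Prop :=
  ∃ x, q i = Sum.inl x ∧ ∀ l, l ≠ i → q l ≠ Sum.inl x

lemma finrank_FF_le {q : Fin m → ℕ ⊕ A} {W : Finset ℕ} (hW : ∀ x, x ∈ W ↔ ∃ l, q l = Sum.inl x)
    {i : Fin m} (hi : Single q i) : finrank (ZMod 2) (FF q i) ≤ W.card + 1 := by
  classical
  have hlev : ∀ x : W, ∃ l, q l = Sum.inl (x : ℕ) := fun x => (hW x).mp x.2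
  choose lev hlev using hlev
  obtain ⟨x0, hx0, hx0'⟩ := hi
  let Λ : FF q i →ₗ[ZMod 2] (W → ZMod 2) × ZMod 2 :=
    LinearMap.prod
      (LinearMap.pi fun x => (LinearMap.proj (pos i (lev x))).comp (FF q i).subtype)
      ((LinearMap.proj i.castSucc).comp (FF q i).subtype)
  have hinj : Function.Injective Λ := by
    rw [← LinearMap.ker_eq_bot, LinearMap.ker_eq_bot']
    rintro ⟨ω, hω⟩ h
    have h1 : ∀ x : W, ω (pos i (lev x)) = 0 := fun x => congrFun (Prod.ext_iff.mp h).1 x
    have h2 : ω i.castSucc = 0 := (Prod.ext_iff.mp h).2
    obtain ⟨t, ht⟩ := mem_FF.mp hω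
    apply Subtype.ext
    funext j
    rcases pos_surj i j with rfl | ⟨l, rfl⟩
    · exact h2
    · by_cases hl : l = i
      · subst hl
        have h3 : lev ⟨x0, (hW x0).mpr ⟨l, hx0⟩⟩ = l := by
          by_contra hne
          exact hx0' _ hne (hlev _)
        have := h1 ⟨x0, (hW x0).mpr ⟨l, hx0⟩⟩
        rwa [h3] at this
      · show ω (pos i l) = 0
        rw [ht l hl]
        cases hq : q l with
        | inr a => rfl
        | inl x =>
          have hxW : x ∈ W := (hW x).mpr ⟨l, hq⟩
          have h4 := hlev ⟨x, hxW⟩
          have h5 : lev ⟨x, hxW⟩ ≠ i := by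
            intro he
            rw [he, hx0] at h4
            have : x0 = x := Sum.inl.inj h4
            exact hx0' l hl (by rw [hq, this])
          have h6 := h1 ⟨x, hxW⟩
          rw [ht _ h5, h4] at h6
          exact h6
  have := LinearMap.finrank_le_finrank_of_injective hinj
  rwa [Module.finrank_prod, Module.finrank_fintype_fun_eq_card, Fintype.card_coe,
    Module.finrank_self] at this

lemma claim (q : Fin m → ℕ ⊕ A) (code : A → ZMod 2) {W : Finset ℕ}
    (hW : ∀ x, x ∈ W ↔ ∃ l, q l = Sum.inl x) (n : ℕ) (hn : n ≤ m) :
    ∀ (p0 : Fin (m + 1) → ZMod 2) (E : Submodule (ZMod 2) (Fin (m + 1) → ZMod 2)),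
      W.card + 1 < finrank (ZMod 2) E →
      ∃ e ∈ E, ∀ i : Fin m, ((i : ℕ) < n ∧ Single q i) → p0 + e ∉ QQ q code i := by
  classical
  induction n with
  | zero =>
    intro p0 E _
    exact ⟨0, E.zero_mem, fun i hi => absurd hi.1 (Nat.not_lt_zero _)⟩
  | succ n ih =>
    intro p0 E hE
    have IH := ih (by omega)
    set I : Fin m := ⟨n, by omega⟩ with hI
    by_cases hs : Single q I
    swap
    · obtain ⟨e, he, h⟩ := IH p0 E hE
      refine ⟨e, he, fun i hi => ?_⟩
      rcases Nat.lt_succ_iff_lt_or_eq.mp hi.1 with h1 | h1
      · exact h i ⟨h1, hi.2⟩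
      · exact absurd hi.2 (by
          have : i = I := Fin.ext h1
          rwa [this])
    · -- level `n` is single
      by_cases hprev : ∃ J : Fin m, (J : ℕ) + 1 = n ∧ Single q J
      · obtain ⟨J, hJ, hsJ⟩ := hprev
        obtain ⟨e, he, h⟩ := IH p0 E hE
        refine ⟨e, he, fun i hi => ?_⟩
        rcases Nat.lt_succ_iff_lt_or_eq.mp hi.1 with h1 | h1
        · exact h i ⟨h1, hi.2⟩
        · have hiI : i = I := Fin.ext h1
          rw [hiI]
          intro hmem
          apply h J ⟨by omega, hsJ⟩
          obtain ⟨t, ht⟩ := hmem
          obtain ⟨x, hx, hx'⟩ := hs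
          obtain ⟨y, hy, hy'⟩ := hsJ
          refine ⟨Function.update t x ((p0 + e) (pos J I)), fun l hl => ?_⟩
          by_cases hlI : l = I
          · rw [hlI, hx]; simp
          · have h2 : pos J l = pos I l := by
              apply Fin.ext
              rw [pos_val, pos_val]
              have h3 : (l : ℕ) ≠ J := fun hh => hl (Fin.ext hh)
              have h4 : (l : ℕ) ≠ n := fun hh => hlI (Fin.ext hh)
              have h5 : (I : ℕ) = n := rfl
              split_ifs <;> omega
            rw [h2, ht l hlI]
            cases hq : q l with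
            | inr a => rfl
            | inl z =>
              have : z ≠ x := by
                rintro rfl
                exact hx' l hlI hq
              simp [this]
      · -- a new direction
        have hDF : finrank (ZMod 2) (FF q I) ≤ W.card + 1 := finrank_FF_le hW hs
        obtain ⟨v, hv, hvS⟩ : ∃ v, v ∉ FF q I ∧
            ∀ i : Fin m, ((i : ℕ) < n ∧ Single q i) → v ∈ FF q i := by
          by_cases hex : ∃ i : Fin m, (i : ℕ) < n ∧ Single q i
          · -- the last single level before `n`
            obtain ⟨J, hJ, hJmax⟩ : ∃ J : Fin m, ((J : ℕ) < n ∧ Single q J) ∧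
                ∀ i : Fin m, ((i : ℕ) < n ∧ Single q i) → i ≤ J := by
              obtain ⟨i0, hi0⟩ := hex
              obtain ⟨J, hJ, hmax⟩ := Finset.exists_max_image
                (Finset.univ.filter fun i : Fin m => (i : ℕ) < n ∧ Single q i) id
                ⟨i0, by simp only [Finset.mem_filter, Finset.mem_univ, true_and]; exact hi0⟩
              refine ⟨J, (Finset.mem_filter.mp hJ).2, fun i hi => hmax i ?_⟩
              simp only [Finset.mem_filter, Finset.mem_univ, true_and]; exact hi
            obtain ⟨hJn, y, hy, hy'⟩ := hJ
            have hJ1 : (J : ℕ) + 1 < n := by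
              rcases Nat.lt_or_ge ((J : ℕ) + 1) n with h | h
              · exact h
              · exact absurd ⟨J, by omega, y, hy, hy'⟩ hprev
            set L : Fin m := ⟨J + 1, by omega⟩ with hL
            have hLns : ¬ Single q L := by
              intro h
              have := hJmax L ⟨hJ1, h⟩
              rw [Fin.le_def] at this
              simp [hL] at this
            refine ⟨Pi.single L.castSucc 1, ?_, ?_⟩
            · rintro ⟨t, ht⟩
              have hLI : L ≠ I := by
                intro h; have := congrArg Fin.val h; simp [hL, hI] at this; omega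
              have hposL : pos I L = L.castSucc := by
                apply Fin.ext; rw [pos_val]
                have : (L : ℕ) < I := by simp [hL, hI]; omega
                rw [if_pos this]; rfl
              have h1 := ht L hLI
              rw [hposL, Pi.single_eq_same] at h1
              cases hq : q L with
              | inr a => rw [hq] at h1; simp at h1
              | inl x =>
                rw [hq] at h1
                simp only [Sum.elim_inl] at h1
                obtain ⟨l', hl', hql'⟩ : ∃ l', l' ≠ L ∧ q l' = Sum.inl x := by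
                  by_contra hcon
                  push Not at hcon
                  exact hLns ⟨x, hq, hcon⟩
                have hl'I : l' ≠ I := by
                  rintro rfl
                  obtain ⟨z, hz, hz'⟩ := hs
                  rw [hz] at hql'
                  rw [Sum.inl.inj hql'] at hz'
                  exact hz' L hLI hq
                have h2 := ht l' hl'I
                rw [hql'] at h2
                simp only [Sum.elim_inl] at h2
                rw [← h1] at h2
                have h3 : pos I l' = L.castSucc := by
                  by_contra hne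
                  rw [Pi.single_eq_of_ne hne] at h2
                  exact zero_ne_one h2
                rw [← hposL] at h3
                exact hl' (pos_inj I h3)
            · intro j hj
              have hjJ : j ≤ J := hJmax j hj
              refine mem_FF.mpr ⟨Pi.single y 1, fun l hl => ?_⟩
              have hle : (j : ℕ) ≤ J := hjJ
              have hlj : (l : ℕ) ≠ j := fun hh => hl (Fin.ext hh)
              by_cases hlJ : l = J
              · subst hlJ
                rw [hy]
                have : pos j l = L.castSucc := by
                  apply Fin.ext; rw [pos_val]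
                  have : ¬ (l : ℕ) < j := by omega
                  rw [if_neg this]; simp [hL]
                rw [this]; simp
              · have hne : pos j l ≠ L.castSucc := by
                  intro h
                  have h1 := congrArg Fin.val h
                  rw [pos_val] at h1
                  have h2 : (L.castSucc : ℕ) = J + 1 := rfl
                  rw [h2] at h1
                  have h3 : (l : ℕ) ≠ J := fun hh => hlJ (Fin.ext hh)
                  split_ifs at h1 <;> omega
                rw [Pi.single_eq_of_ne hne]
                cases hq : q l with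
                | inr a => rfl
                | inl z =>
                  have : z ≠ y := by
                    rintro rfl
                    exact hy' l hlJ hq
                  simp [this]
          · -- no single level before
            push Not at hex
            have hne : FF q I ≠ ⊤ := by
              intro h
              rw [h, finrank_top] at hDF
              have := Submodule.finrank_le E
              omega
            obtain ⟨v, hv⟩ : ∃ v, v ∉ FF q I := by
              by_contra hcon
              push Not at hcon
              exact hne (Submodule.eq_top_iff'.mpr hcon)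
            exact ⟨v, hv, fun i hi => absurd hi.2 (hex i hi.1)⟩
        obtain ⟨e, he, h1, h2⟩ := cover_step (K := ZMod 2)
          (fun i : Fin m => (i : ℕ) < n ∧ Single q i) (QQ q code) (FF q) (D := W.card + 1)
          (QQ_trans q code) I hDF v hv hvS IH p0 E hE
        refine ⟨e, he, fun i hi => ?_⟩
        rcases Nat.lt_succ_iff_lt_or_eq.mp hi.1 with h3 | h3
        · exact h1 i ⟨h3, hi.2⟩
        · have : i = I := Fin.ext h3
          rw [this]; exact h2

end linear

end Pool.Agent.PatDepth
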