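import Mathlib
import Pool.Agent.PatDepth.Comb

namespace Pool.Agent.PatDepth

open Module

variable {A : Type}

lemma mem_vars {p : List (ℕ ⊕ A)} {x : ℕ} :
    x ∈ (p.filterMap Sum.getLeft?).toFinset ↔ Sum.inl x ∈ p := by
  rw [List.mem_toFinset, List.mem_filterMap]
  constructor
  · rintro ⟨s, hs, h⟩
    cases s with
    | inl y => simp at h; rw [← h]; exact hs
    | inr a => simp at h
  · intro h
    exact ⟨_, h, rfl⟩

lemma lets_mem (f : ℕ → A) (p : List (ℕ ⊕ A)) : lets f p ∈ Lang p :=
  ⟨fun x => [f x], fun x => by simp, (subst_letter f p).symm⟩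

lemma lets_length (f : ℕ → A) (p : List (ℕ ⊕ A)) : (lets f p).length = p.length := by
  simp [lets]

/-- the code of the doubled word -/
lemma getD_lets (a0 : A) (f : ℕ → A) (q : List (ℕ ⊕ A)) (l : ℕ) :
    (lets f q)[l]?.getD a0 = Sum.elim f id (q[l]?.getD (Sum.inr a0)) := by
  rw [lets, List.getElem?_map]
  cases q[l]? <;> rfl

theorem nvar_le_succ [Nontrivial A] {p q : List (ℕ ⊕ A)} (hsub : Lang p ⊆ Lang q)
    (hlen : p.length = q.length + 1) : nvar p ≤ nvar q + 1 := by
  classical
  by_contra hcon
  push Not at hcon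
  obtain ⟨a, b, hab⟩ := exists_pair_ne A
  set m := q.length with hm
  let code : A → ZMod 2 := fun c => if c = b then 1 else 0
  let qf : Fin m → ℕ ⊕ A := fun l => q[(l : ℕ)]?.getD (Sum.inr a)
  let pf : Fin (m + 1) → ℕ ⊕ A := fun j => p[(j : ℕ)]?.getD (Sum.inr a)
  have hqf : ∀ l : Fin m, qf l = q[(l : ℕ)]'(by omega) := by
    intro l
    show q[(l : ℕ)]?.getD (Sum.inr a) = _
    rw [List.getElem?_eq_getElem (by omega), Option.getD_some]
  have hpf : ∀ j : Fin (m + 1), pf j = p[(j : ℕ)]'(by omega) := by
    intro j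
    show p[(j : ℕ)]?.getD (Sum.inr a) = _
    rw [List.getElem?_eq_getElem (by omega), Option.getD_some]
  have hW : ∀ x, x ∈ (q.filterMap Sum.getLeft?).toFinset ↔ ∃ l, qf l = Sum.inl x := by
    intro x
    rw [mem_vars, List.mem_iff_getElem]
    constructor
    · rintro ⟨l, hl, h⟩
      exact ⟨⟨l, hl⟩, by rw [hqf]; exact h⟩
    · rintro ⟨l, h⟩
      exact ⟨l, l.2, by rw [← hqf]; exact h⟩
  have hWp : ∀ x, x ∈ (p.filterMap Sum.getLeft?).toFinset ↔ ∃ l, pf l = Sum.inl x := by
    intro x
    rw [mem_vars, List.mem_iff_getElem]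
    constructor
    · rintro ⟨l, hl, h⟩
      exact ⟨⟨l, by omega⟩, by rw [hpf]; exact h⟩
    · rintro ⟨l, h⟩
      exact ⟨l, by omega, by rw [← hpf]; exact h⟩
  -- the space of letter substitutions of `p`
  let Φ : (ℕ → ZMod 2) →ₗ[ZMod 2] (Fin (m + 1) → ZMod 2) :=
    LinearMap.pi fun j => Sum.elim (fun x => LinearMap.proj x) (fun _ => 0) (pf j)
  have hΦ : ∀ s j, Φ s j = Sum.elim s (fun _ => 0) (pf j) := by
    intro s j
    show (Sum.elim (fun x => (LinearMap.proj x : (ℕ → ZMod 2) →ₗ[ZMod 2] ZMod 2))
      (fun _ => 0) (pf j)) s = _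
    cases pf j <;> rfl
  set E := LinearMap.range Φ with hE
  have hErank : nvar p ≤ finrank (ZMod 2) E := by
    let ext : ((p.filterMap Sum.getLeft?).toFinset → ZMod 2) →ₗ[ZMod 2] (ℕ → ZMod 2) :=
      Function.ExtendByZero.linearMap (ZMod 2) Subtype.val
    have hinj : Function.Injective (Φ.rangeRestrict.comp ext) := by
      rw [← LinearMap.ker_eq_bot, LinearMap.ker_eq_bot']
      intro s hs
      funext x
      obtain ⟨j, hj⟩ := (hWp x).mp x.2
      have h1 : Φ (ext s) j = 0 := congrFun (congrArg Subtype.val hs) j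
      rw [hΦ, hj] at h1
      simp only [Sum.elim_inl] at h1
      have h2 : ext s (x : ℕ) = s x := by
        show Function.extend Subtype.val s 0 (x : ℕ) = s x
        exact Subtype.val_injective.extend_apply s 0 x
      rw [h2] at h1
      exact h1
    have := LinearMap.finrank_le_finrank_of_injective hinj
    rwa [Module.finrank_fintype_fun_eq_card, Fintype.card_coe] at this
  obtain ⟨e, he, hno⟩ := claim qf code hW m le_rfl
    (fun j => Sum.elim (fun _ => 0) code (pf j)) E (by
      have : (q.filterMap Sum.getLeft?).toFinset.card = nvar q := rfl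
      omega)
  obtain ⟨s, rfl⟩ := LinearMap.mem_range.mp he
  -- the word
  let f : ℕ → A := fun x => if s x = 1 then b else a
  have hf : ∀ x, code (f x) = s x := by
    intro x
    show (if (if s x = 1 then b else a) = b then (1 : ZMod 2) else 0) = s x
    by_cases h1 : s x = 1
    · rw [if_pos h1, if_pos rfl, h1]
    · rw [if_neg h1, if_neg hab]
      have h2 : ∀ z : ZMod 2, z ≠ 1 → 0 = z := by decide
      exact h2 _ h1
  obtain ⟨τ, hτ, hw⟩ := hsub (lets_mem f p)
  have hlen2 : (subst τ q).length = q.length + 1 := by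
    rw [← hw, lets_length]; omega
  obtain ⟨q1, x, q2, c, d, hq, hx1, hx2, _, hs⟩ := case1 a hτ q hlen2
  set g : ℕ → A := fun x => (τ x).headD a with hg
  have hmlen : m = q1.length + 1 + q2.length := by
    rw [hm, hq]; simp only [List.length_append, List.length_cons]; omega
  let i : Fin m := ⟨q1.length, by omega⟩
  have hqi : qf i = Sum.inl x := by
    show q[q1.length]?.getD (Sum.inr a) = Sum.inl x
    rw [hq, List.getElem?_append_right le_rfl, Nat.sub_self]; rfl
  have hlow : ∀ l : Fin m, (l : ℕ) < q1.length → qf l = q1[(l : ℕ)]?.getD (Sum.inr a) := by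
    intro l hl
    show q[(l : ℕ)]?.getD (Sum.inr a) = _
    rw [hq, List.getElem?_append_left hl]
  have hhigh : ∀ l : Fin m, q1.length < (l : ℕ) →
      qf l = q2[(l : ℕ) - q1.length - 1]?.getD (Sum.inr a) := by
    intro l hl
    show q[(l : ℕ)]?.getD (Sum.inr a) = _
    rw [hq, List.getElem?_append_right hl.le]
    have : (l : ℕ) - q1.length = ((l : ℕ) - q1.length - 1) + 1 := by omega
    rw [this, List.getElem?_cons_succ]
    rfl
  have hmemD : ∀ (r : List (ℕ ⊕ A)) (k : ℕ) (y : ℕ), r[k]?.getD (Sum.inr a) = Sum.inl y →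
      Sum.inl y ∈ r := by
    intro r k y h
    cases hk : r[k]? with
    | none => rw [hk] at h; simp at h
    | some z =>
      rw [hk, Option.getD_some] at h
      rw [← h]
      exact List.mem_of_getElem? hk
  have hsingle : Single qf i := by
    refine ⟨x, hqi, fun l hl h => ?_⟩
    rcases Nat.lt_trichotomy (l : ℕ) q1.length with h1 | h1 | h1
    · rw [hlow l h1] at h
      exact hx1 (hmemD _ _ _ h)
    · exact hl (Fin.ext h1)
    · rw [hhigh l h1] at h
      exact hx2 (hmemD _ _ _ h)
  refine hno i ⟨i.2, hsingle⟩ ⟨fun y => code (g y), fun l hl => ?_⟩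
  -- the coded word
  have hcw : ∀ j : Fin (m + 1), ((fun j => Sum.elim (fun _ => 0) code (pf j)) + Φ s) j =
      code ((lets f p)[(j : ℕ)]?.getD a) := by
    intro j
    rw [Pi.add_apply, hΦ, getD_lets]
    show Sum.elim (fun _ => 0) code (pf j) + Sum.elim s (fun _ => 0) (pf j) =
      code (Sum.elim f id (pf j))
    cases pf j with
    | inl y => simp [hf]
    | inr z => simp
  rw [hcw, hw, hs, pos_val]
  have hval : ∀ z : ℕ ⊕ A, Sum.elim (fun y => code (g y)) code z = code (Sum.elim g id z) := by
    intro z; cases z <;> rfl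
  rw [hval]
  congr 1
  rcases Nat.lt_trichotomy (l : ℕ) q1.length with h1 | h1 | h1
  · have h2 : (l : ℕ) < i := h1
    rw [if_pos h2, hlow l h1, ← getD_lets, List.getElem?_append_left (by rw [lets_length]; exact h1)]
  · exact absurd (Fin.ext h1) hl
  · have h2 : ¬ (l : ℕ) < i := by
      show ¬ (l : ℕ) < q1.length
      omega
    rw [if_neg h2, hhigh l h1, ← getD_lets,
      List.getElem?_append_right (by rw [lets_length]; omega), lets_length]
    have : (l : ℕ) + 1 - q1.length = ((l : ℕ) - q1.length - 1) + 1 + 1 := by omega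
    rw [this, List.getElem?_cons_succ, List.getElem?_cons_succ]

/-- equal lengths: `p` is obtained from `q` by replacing variables by symbols -/
theorem morph [Nontrivial A] {p q : List (ℕ ⊕ A)} (hsub : Lang p ⊆ Lang q)
    (hlen : p.length = q.length) :
    ∃ φ : ℕ → ℕ ⊕ A, p = q.map (Sum.elim φ Sum.inr) := by
  classical
  obtain ⟨a, b, hab⟩ := exists_pair_ne A
  -- every letter instance of `p` is a letter instance of `q`
  have hinst : ∀ f : ℕ → A, ∃ g : ℕ → A, lets f p = lets g q := by
    intro f
    obtain ⟨τ, hτ, hw⟩ := hsub (lets_mem f p)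
    exact ⟨_, hw.trans (case0 a hτ q (by rw [← hw, lets_length, hlen])).1⟩
  have hpos : ∀ (f g : ℕ → A), lets f p = lets g q → ∀ j (hj : j < q.length),
      Sum.elim f id (p[j]'(by omega)) = Sum.elim g id q[j] := by
    intro f g h j hj
    have h1 : (lets f p)[j]'(by rw [lets_length]; omega) =
        (lets g q)[j]'(by rw [lets_length]; omega) := by
      congr 1
    simpa [lets] using h1
  -- two different symbols can be told apart
  have hsep : ∀ s t : ℕ ⊕ A, s ≠ t → ∃ f : ℕ → A, Sum.elim f id s ≠ Sum.elim f id t := by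
    intro s t hst
    cases s with
    | inl x =>
      cases t with
      | inl y =>
        refine ⟨fun z => if z = x then a else b, ?_⟩
        have : y ≠ x := fun h => hst (by rw [h])
        simp [this, hab]
      | inr c =>
        by_cases hc : a = c
        · refine ⟨fun _ => b, ?_⟩
          simp only [Sum.elim_inl, Sum.elim_inr, id]
          rw [← hc]; exact hab.symm
        · exact ⟨fun _ => a, by simpa using hc⟩
    | inr c =>
      cases t with
      | inl y =>
        by_cases hc : a = c
        · refine ⟨fun _ => b, ?_⟩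
          simp only [Sum.elim_inl, Sum.elim_inr, id]
          rw [← hc]; exact hab
        · refine ⟨fun _ => a, ?_⟩
          simp only [Sum.elim_inl, Sum.elim_inr, id]
          exact fun h => hc h.symm
      | inr d =>
        exact ⟨fun _ => a, by simpa using hst⟩
  -- equal symbols of `q` give equal symbols of `p`
  have heq : ∀ j j' (hj : j < q.length) (hj' : j' < q.length), q[j] = q[j'] →
      p[j]'(by omega) = p[j']'(by omega) := by
    intro j j' hj hj' h
    by_contra hne
    obtain ⟨f, hf⟩ := hsep _ _ hne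
    obtain ⟨g, hg⟩ := hinst f
    apply hf
    rw [hpos f g hg j hj, hpos f g hg j' hj', h]
  have hconst : ∀ j (hj : j < q.length) (c : A), q[j] = Sum.inr c →
      p[j]'(by omega) = Sum.inr c := by
    intro j hj c h
    by_contra hne
    obtain ⟨f, hf⟩ := hsep _ _ hne
    obtain ⟨g, hg⟩ := hinst f
    apply hf
    rw [hpos f g hg j hj, h]
    rfl
  refine ⟨fun x => if h : ∃ j, ∃ hj : j < q.length, q[j] = Sum.inl x then
    p[h.choose]'(by have := h.choose_spec.1; omega) else Sum.inl x, ?_⟩
  apply List.ext_getElem (by simp [hlen])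
  intro j hj1 hj2
  have hj : j < q.length := by omega
  rw [List.getElem_map]
  cases hq : q[j] with
  | inr c => exact hconst j hj c hq
  | inl x =>
    have h : ∃ j, ∃ hj : j < q.length, q[j] = Sum.inl x := ⟨j, hj, hq⟩
    simp only [Sum.elim_inl]
    rw [dif_pos h]
    exact heq _ _ _ _ (hq.trans h.choose_spec.2.symm)

lemma subst_map (τ : ℕ → List A) (φ : ℕ → ℕ ⊕ A) (q : List (ℕ ⊕ A)) :
    subst τ (q.map (Sum.elim φ Sum.inr)) =
      subst (fun x => Sum.elim τ (fun a => [a]) (φ x)) q := by
  induction q with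
  | nil => rfl
  | cons s q ih =>
    rw [List.map_cons, subst_cons, subst_cons, ih]
    cases s <;> rfl

lemma lang_map_subset (φ : ℕ → ℕ ⊕ A) (q : List (ℕ ⊕ A)) :
    Lang (q.map (Sum.elim φ Sum.inr)) ⊆ Lang q := by
  rintro w ⟨τ, hτ, rfl⟩
  refine ⟨_, fun x => ?_, subst_map τ φ q⟩
  cases φ x with
  | inl y => exact hτ y
  | inr a => simp

/-- equal lengths -/
theorem same_length [Nontrivial A] {p q : List (ℕ ⊕ A)} (hsub : Lang p ⊆ Lang q)
    (hlen : p.length = q.length) : nvar p ≤ nvar q ∧ (nvar p = nvar q → Lang p = Lang q) := by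
  classical
  obtain ⟨φ, hφ⟩ := morph hsub hlen
  set W := (q.filterMap Sum.getLeft?).toFinset with hW
  set Wp := (p.filterMap Sum.getLeft?).toFinset with hWp
  -- variables of `p` come from variables of `q`
  have hsurj : ∀ y ∈ Wp, ∃ x ∈ W, φ x = Sum.inl y := by
    intro y hy
    rw [hWp, mem_vars, hφ, List.mem_map] at hy
    obtain ⟨s, hs, h⟩ := hy
    cases s with
    | inl x => exact ⟨x, mem_vars.mpr hs, h⟩
    | inr a => simp at h
  choose! ψ hψW hψ using hsurj
  have hinj : Set.InjOn ψ Wp := by
    intro y hy z hz h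
    have h1 := hψ y hy
    rw [h, hψ z hz] at h1
    exact (Sum.inl.inj h1).symm
  have hle : Wp.card ≤ W.card := Finset.card_le_card_of_injOn ψ (fun y hy => hψW y hy) hinj
  refine ⟨hle, fun heq => ?_⟩
  have himg : Wp.image ψ = W := by
    apply Finset.eq_of_subset_of_card_le
    · intro x hx
      obtain ⟨y, hy, rfl⟩ := Finset.mem_image.mp hx
      exact hψW y hy
    · rw [Finset.card_image_of_injOn hinj]
      exact (le_of_eq heq.symm)
  refine Set.Subset.antisymm hsub ?_
  have hq : q = p.map (Sum.elim (fun y => Sum.inl (ψ y)) Sum.inr) := by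
    conv_rhs => rw [hφ]
    rw [List.map_map]
    conv_lhs => rw [← List.map_id q]
    apply List.map_congr_left
    intro s hs
    cases s with
    | inr a => rfl
    | inl x =>
      have hx : x ∈ Wp.image ψ := by rw [himg]; exact mem_vars.mpr hs
      obtain ⟨y, hy, rfl⟩ := Finset.mem_image.mp hx
      simp only [Function.comp, Sum.elim_inl, id]
      rw [hψ y hy]
      rfl
  rw [hq]
  exact lang_map_subset _ _

lemma lang_length_ge {q : List (ℕ ⊕ A)} {w : List A} (hw : w ∈ Lang q) : q.length ≤ w.length := by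
  obtain ⟨τ, hτ, rfl⟩ := hw
  exact length_le hτ q

lemma length_le_of_subset [Nontrivial A] {p q : List (ℕ ⊕ A)} (hsub : Lang p ⊆ Lang q) :
    q.length ≤ p.length := by
  obtain ⟨a, _, _⟩ := exists_pair_ne A
  have := lang_length_ge (hsub (lets_mem (fun _ => a) p))
  rwa [lets_length] at this

theorem partOne [Nontrivial A] {p q : List (ℕ ⊕ A)} (h : Lang p ⊂ Lang q)
    (hlen : p.length ≤ q.length + 1) : 2 * q.length + nvar p < 2 * p.length + nvar q := by
  have h1 := length_le_of_subset h.subset
  rcases Nat.lt_or_ge q.length p.length with h2 | h2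
  · have h3 : p.length = q.length + 1 := by omega
    have := nvar_le_succ h.subset h3
    omega
  · have h3 : p.length = q.length := by omega
    obtain ⟨h4, h5⟩ := same_length h.subset h3
    have h6 : nvar p ≠ nvar q := fun h' => h.ne (h5 h')
    omega

theorem lang_eq_invariant [Nontrivial A] {p q : List (ℕ ⊕ A)} (h : Lang p = Lang q) :
    p.length = q.length ∧ nvar p = nvar q := by
  have h1 : p.length = q.length :=
    le_antisymm (length_le_of_subset h.symm.subset) (length_le_of_subset h.subset)
  exact ⟨h1, le_antisymm (same_length h.subset h1).1 (same_length h.symm.subset h1.symm).1⟩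

end Pool.Agent.PatDepth
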