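import Mathlib
import Pool.Agent.PatDepth.Main

namespace Pool.Agent.PatDepth

variable {A : Type}

lemma nvar_le_length (p : List (ℕ ⊕ A)) : nvar p ≤ p.length :=
  (List.toFinset_card_le _).trans (List.length_filterMap_le _ _)

lemma lang_singleton (M N : ℕ) : Lang ([Sum.inl M] : List (ℕ ⊕ A)) = Lang [Sum.inl N] := by
  have key : ∀ M N : ℕ, Lang ([Sum.inl M] : List (ℕ ⊕ A)) ⊆ Lang [Sum.inl N] := by
    intro M N
    have := lang_map_subset (fun _ => Sum.inl M) ([Sum.inl N] : List (ℕ ⊕ A))
    simpa using this
  exact Set.Subset.antisymm (key M N) (key N M)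

theorem chain_le [Nontrivial A] {p : List (ℕ ⊕ A)} {n : ℕ} (h : HasSlowChain p n) :
    n + 1 + nvar p ≤ 2 * p.length := by
  obtain ⟨c, _, hc0, hcn, hstep⟩ := h
  have key : ∀ i ≤ n, i + 1 + nvar (c i) ≤ 2 * (c i).length := by
    intro i
    induction i with
    | zero =>
      intro _
      obtain ⟨h1, h2⟩ := lang_eq_invariant hc0
      have h3 : nvar ([Sum.inl 1] : List (ℕ ⊕ A)) = 1 := by simp [nvar]
      rw [h1, h2, h3]
      simp
    | succ i ih =>
      intro hi
      obtain ⟨h1, h2⟩ := hstep i (by omega)
      have h3 := partOne h1 h2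
      have h4 := ih (by omega)
      omega
  obtain ⟨h1, h2⟩ := lang_eq_invariant hcn
  have := key n le_rfl
  omega

lemma chain_congr {p p' : List (ℕ ⊕ A)} {n : ℕ} (h : HasSlowChain p n) (he : Lang p = Lang p') :
    HasSlowChain p' n := by
  obtain ⟨c, h0, h1, h2, h3⟩ := h
  exact ⟨c, h0, h1, h2.trans he, h3⟩

lemma chain_ext [Nontrivial A] {p p' : List (ℕ ⊕ A)} {n : ℕ} (h : HasSlowChain p n)
    (hp' : p' ≠ []) (hs : Lang p' ⊂ Lang p) (hl : p'.length ≤ p.length + 1) :
    HasSlowChain p' (n + 1) := by
  obtain ⟨c, h0, h1, h2, h3⟩ := h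
  refine ⟨fun i => if i ≤ n then c i else p', fun i _ => ?_, ?_, ?_, fun i hi => ?_⟩
  · by_cases hin : i ≤ n
    · simp only [hin, if_true]; exact h0 i hin
    · simp only [hin, if_false]; exact hp'
  · simp only [Nat.zero_le, if_true]; exact h1
  · have : ¬ n + 1 ≤ n := by omega
    simp only [this, if_false]
  · rcases Nat.lt_or_ge i n with hin | hin
    · have h4 : i + 1 ≤ n := hin
      have h5 : i ≤ n := hin.le
      simp only [h4, h5, if_true]
      exact h3 i hin
    · have h6 : i = n := by omega
      subst h6
      have h7 : ¬ i + 1 ≤ i := by omega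
      simp only [h7, if_false, le_refl, if_true]
      exact ⟨by rw [h2]; exact hs, by rw [(lang_eq_invariant h2).1]; exact hl⟩

/-- fresh variables -/
def fresh (A : Type) (M k : ℕ) : List (ℕ ⊕ A) := (List.range' M k).map Sum.inl

lemma fresh_succ (M k : ℕ) : fresh A M (k + 1) = Sum.inl M :: fresh A (M + 1) k := by
  simp [fresh, List.range'_succ]

lemma fresh_concat (M k : ℕ) : fresh A M (k + 1) = fresh A M k ++ [Sum.inl (M + k)] := by
  simp [fresh, List.range'_concat]

lemma length_fresh (M k : ℕ) : (fresh A M k).length = k := by simp [fresh]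

lemma mem_fresh {M k x : ℕ} : (Sum.inl x : ℕ ⊕ A) ∈ fresh A M k ↔ M ≤ x ∧ x < M + k := by
  simp [fresh, List.mem_range'_1]

lemma nvar_fresh (M k : ℕ) : nvar (fresh A M k) = k := by
  have h : (fresh A M k).filterMap Sum.getLeft? = List.range' M k := by
    rw [fresh, List.filterMap_map]
    have : (Sum.getLeft? ∘ (Sum.inl : ℕ → ℕ ⊕ A)) = some := by
      funext x; rfl
    rw [this, List.filterMap_some]
  rw [nvar, h, List.toFinset_card_of_nodup (List.nodup_range' ), List.length_range']

lemma subst_congr {τ τ' : ℕ → List A} {p : List (ℕ ⊕ A)}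
    (h : ∀ x, Sum.inl x ∈ p → τ x = τ' x) : subst τ p = subst τ' p := by
  induction p with
  | nil => rfl
  | cons s p ih =>
    rw [subst_cons, subst_cons, ih fun x hx => h x (List.mem_cons_of_mem _ hx)]
    cases s with
    | inl x =>
      rw [Sum.elim_inl, Sum.elim_inl, h x (List.mem_cons_self)]
    | inr a => rfl

lemma fresh_subset (M k : ℕ) : Lang (fresh A M (k + 2)) ⊆ Lang (fresh A M (k + 1)) := by
  classical
  rintro w ⟨τ, hτ, rfl⟩
  refine ⟨Function.update τ (M + k) (τ (M + k) ++ τ (M + (k + 1))), fun x => ?_, ?_⟩
  · by_cases hx : x = M + k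
    · subst hx; simp [hτ]
    · simp [Function.update_of_ne hx, hτ]
  · rw [fresh_concat M (k + 1), fresh_concat M k, subst_append, subst_append, subst_append]
    have h1 : subst (Function.update τ (M + k) (τ (M + k) ++ τ (M + (k + 1)))) (fresh A M k) =
        subst τ (fresh A M k) := by
      apply subst_congr
      intro x hx
      rw [mem_fresh] at hx
      rw [Function.update_of_ne (by omega)]
    have h2 : ∀ (σ : ℕ → List A) (x : ℕ), subst σ [Sum.inl x] = σ x := fun σ x => by
      rw [subst_cons, subst_nil, Sum.elim_inl, List.append_nil]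
    rw [h1, h2, h2, h2, Function.update_self, List.append_assoc]

lemma chain_fresh [Nontrivial A] (M k : ℕ) : HasSlowChain (fresh A M (k + 1)) k := by
  induction k with
  | zero =>
    refine ⟨fun _ => fresh A M 1, fun i _ => ?_, ?_, rfl, fun i hi => absurd hi (Nat.not_lt_zero _)⟩
    · show fresh A M (0 + 1) ≠ []
      rw [fresh_succ]
      exact List.cons_ne_nil _ _
    · show Lang (fresh A M (0 + 1)) = _
      rw [fresh_succ]
      exact lang_singleton M 1
  | succ k ih =>
    refine chain_ext ih ?_ ?_ ?_
    · rw [fresh_succ]; exact List.cons_ne_nil _ _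
    · refine (fresh_subset M k).ssubset_of_ne fun h => ?_
      have := (lang_eq_invariant h).1
      rw [length_fresh, length_fresh] at this
      omega
    · rw [length_fresh, length_fresh]

/-- the invariant -/
theorem chain_mix [Nontrivial A] (p : List (ℕ ⊕ A)) : ∀ k : ℕ, 1 ≤ p.length + k →
    ∃ N, ∀ M ≥ N, HasSlowChain (p ++ fresh A M k)
      (2 * (p.length + k) - nvar (p ++ fresh A M k) - 1) := by
  classical
  induction p using List.reverseRecOn with
  | nil =>
    intro k hk
    refine ⟨0, fun M _ => ?_⟩
    obtain ⟨k, rfl⟩ : ∃ k', k = k' + 1 := ⟨k - 1, by simp at hk; omega⟩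
    rw [List.nil_append, nvar_fresh]
    have h1 : 2 * (([] : List (ℕ ⊕ A)).length + (k + 1)) - (k + 1) - 1 = k := by
      simp only [List.length_nil]; omega
    rw [h1]
    exact chain_fresh M k
  | append_singleton p s ih =>
    intro k _
    obtain ⟨N, hN⟩ := ih (k + 1) (by omega)
    -- a bound for the variables of `p`
    obtain ⟨N1, hN1⟩ : ∃ N1, ∀ x, Sum.inl x ∈ p → x < N1 := by
      refine ⟨((p.filterMap Sum.getLeft?).toFinset.sup id) + 1, fun x hx => ?_⟩
      have : x ≤ (p.filterMap Sum.getLeft?).toFinset.sup id :=
        Finset.le_sup (f := id) (mem_vars.mpr hx)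
      omega
    refine ⟨max N N1 + 1, fun M hM => ?_⟩
    obtain ⟨M, rfl⟩ : ∃ M', M = M' + 1 := ⟨M - 1, by omega⟩
    have hchain := hN M (by omega)
    set q := p ++ fresh A M (k + 1) with hq
    set q' := p ++ [s] ++ fresh A (M + 1) k with hq'
    have hqe : q = p ++ Sum.inl M :: fresh A (M + 1) k := by rw [hq, fresh_succ]
    have hmap : q' = q.map (Sum.elim (Function.update Sum.inl M s) Sum.inr) := by
      rw [hqe, hq', List.map_append, List.map_cons, Sum.elim_inl, Function.update_self,
        List.append_assoc, List.singleton_append]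
      have hid : ∀ l : List (ℕ ⊕ A), Sum.inl M ∉ l →
          l.map (Sum.elim (Function.update Sum.inl M s) Sum.inr) = l := by
        intro l hl
        conv_rhs => rw [← List.map_id l]
        apply List.map_congr_left
        intro t ht
        cases t with
        | inr a => rfl
        | inl x =>
          have : x ≠ M := by rintro rfl; exact hl ht
          rw [Sum.elim_inl, Function.update_of_ne this]; rfl
      rw [hid p fun h => ?_, hid _ fun h => ?_]
      · rw [mem_fresh] at h; omega
      · have := hN1 M h; omega
    have hsub : Lang q' ⊆ Lang q := by rw [hmap]; exact lang_map_subset _ _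
    have hlen : q'.length = q.length := by rw [hmap, List.length_map]
    have hlen' : q.length = p.length + (k + 1) := by
      rw [hq, List.length_append, length_fresh]
    obtain ⟨h1, h2⟩ := same_length hsub hlen
    have h3 : nvar q ≤ nvar q' + 1 := by
      have hss : (q.filterMap Sum.getLeft?).toFinset ⊆
          insert M (q'.filterMap Sum.getLeft?).toFinset := by
        intro x hx
        rw [mem_vars, hqe, List.mem_append, List.mem_cons] at hx
        rw [Finset.mem_insert, mem_vars, hq']
        rcases hx with hx | hx | hx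
        · right; simp [hx]
        · left; exact Sum.inl.inj hx
        · right; simp [hx]
      exact (Finset.card_le_card hss).trans (Finset.card_insert_le _ _)
    have h4 := nvar_le_length q
    have hL : (p ++ [s]).length + k = p.length + (k + 1) := by
      rw [List.length_append, List.length_singleton]; omega
    rw [hL]
    by_cases he : nvar q' = nvar q
    · rw [he]
      exact chain_congr hchain (h2 he).symm
    · have h5 : nvar q = nvar q' + 1 := by omega
      have h6 : 2 * (p.length + (k + 1)) - nvar q' - 1 =
          (2 * (p.length + (k + 1)) - nvar q - 1) + 1 := by omega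
      rw [h6]
      refine chain_ext hchain ?_ (hsub.ssubset_of_ne fun h => he ?_) (by omega)
      · intro h
        have := congrArg List.length h
        rw [hlen, hlen'] at this
        simp at this
      · exact (lang_eq_invariant h).2

theorem chain_greatest [Nontrivial A] {p : List (ℕ ⊕ A)} (hp : p ≠ []) :
    IsGreatest {n | HasSlowChain p n} (2 * p.length - nvar p - 1) := by
  constructor
  · have hpos : 1 ≤ p.length := List.length_pos_iff.mpr hp
    obtain ⟨N, hN⟩ := chain_mix p 0 (by omega)
    have := hN N le_rfl
    simpa [fresh] using this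
  · intro n hn
    have := chain_le (show HasSlowChain p n from hn)
    omega

end Pool.Agent.PatDepth
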